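import Pool.Agent.Lib.MP_7eb9fd_co.Count

/-!
# MP_7eb9fd_co: forcibly connected partitions with two parts equal to 1
-/

set_option autoImplicit false

namespace Pool.Agent.Results.MP_7eb9fd_co.DeletingOnes

open Pool.Agent.MP_7eb9fd_co

/-- (1) A partition with two parts 1 and at least one further part is forcibly connected iff it is
graphical and stops being graphical when two parts 1 are deleted.
(2) Hence `G n j = F n j + G (n - 2) (j - 2) + N n j` for all `n ≥ 2`, `j ≥ 3` (written with
`n + 2`, `j + 2`), where `N` counts the graphical partitions with at most one part 1 that are not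
forcibly connected.
(3) For even `n` and `(n + 7) / 3 ≤ j ≤ n / 2` the number `N n j` is `p(n - 2j) + p(n - 2j + 1)`,
with `p` the partition function. -/
theorem result :
    (∀ r : Multiset ℕ, r ≠ 0 → (∀ x ∈ r, 1 ≤ x) →
      (ForciblyConnected (1 ::ₘ 1 ::ₘ r) ↔ Graphical (1 ::ₘ 1 ::ₘ r) ∧ ¬ Graphical r)) ∧
    (∀ n j : ℕ, 1 ≤ j →
      Gn (n + 2) (j + 2) = F (n + 2) (j + 2) + Gn n j + (Nset (n + 2) (j + 2)).ncard) ∧
    (∀ n j : ℕ, Even n → n + 7 ≤ 3 * j → 2 * j ≤ n →
      (Nset n j).ncard = Fintype.card (Nat.Partition (n - 2 * j)) +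
        Fintype.card (Nat.Partition (n - 2 * j + 1))) :=
  ⟨structure_thm, count_identity, fun n j hev hn h2 => by
    rw [Nset_eq n j hev hn]
    exact Qset_card n j h2 hn⟩

end Pool.Agent.Results.MP_7eb9fd_co.DeletingOnes
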