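import Pool.Agent.Lib.MP_7eb9fd_co.Strict

/-!
# MP_7eb9fd_co: the numbers F(n,j) decrease on the last third of the range
-/

set_option autoImplicit false

namespace Pool.Agent.Results.MP_7eb9fd_co.LastThird

open Pool.Agent.MP_7eb9fd_co

/-- `F n j` is the number of forcibly connected graphical partitions of `n` with exactly `j`
parts. For every `n` and every `j ≥ (n + 7) / 3` one has `F n j ≤ F n (j - 1)`, and
`F n j < F n (j - 1)` if moreover `n` is even and `j ≤ n / 2`. -/
theorem result :
    (∀ n j : ℕ, n + 7 ≤ 3 * j → F n j ≤ F n (j - 1)) ∧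
    (∀ n j : ℕ, Even n → n + 7 ≤ 3 * j → 2 * j ≤ n → F n j < F n (j - 1)) :=
  ⟨main, strict⟩

end Pool.Agent.Results.MP_7eb9fd_co.LastThird
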